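import Mathlib
import Pool.Agent.H93.Jon.Defs
import Pool.Agent.H93.Jon.Proof

/-!
# Jonsson cardinals: a local-global principle for trees (MP_68c39c_lc, question Q1)

Let `κ` be a weakly inaccessible Jonsson cardinal (in particular the least strongly inaccessible
one), `T` a `κ`-tree of sequences and `t α ∈ T α` for `α` in a set `R ⊆ κ`. If for some `θ < κ`
the nodes `t α` are, below every reflection point `β < κ` of `R` and up to a club of `β`, within
distance `θ` of the restrictions of `θ` functions on `β`, then up to a club of `κ` they are within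
distance `θ` of fewer than `κ` cofinal branches of `T`. Definitions are in
`Pool.Agent.H93.Jon.Defs`, the proof is in `Pool.Agent.H93.Jon.Proof`; `IsClub` and `IsStationary`
are Mathlib's.
-/

set_option autoImplicit false
universe u
open Cardinal Set Pool.Agent.H93.Jon

namespace Pool.Agent.Results.MP_68c39c_lc.LocalGlobal

/-- **Theorem.** Let `κ` be a weakly inaccessible Jonsson cardinal, `ℵ₀ ≤ θ < κ`, `T` a `κ`-tree of
sequences, `R ⊆ κ` and `t α ∈ T α` for `α ∈ R`. Suppose that for every `β < κ` in which `R ∩ β` is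
stationary there are a club `E ⊆ β` and at most `θ` functions on `β` such that every `t α`,
`α ∈ R ∩ E`, differs from one of them at no more than `θ` places. Then there are a club `E ⊆ κ` and
fewer than `κ` cofinal branches of `T` such that every `t α`, `α ∈ R ∩ E`, differs from one of them
at no more than `θ` places. -/
theorem result {κ : Cardinal.{u}} (hunc : ℵ₀ < κ) (hreg : κ.IsRegular)
    (hlim : ∀ μ < κ, Order.succ μ < κ) (hJ : IsJonsson κ) (A : Type u)
    (T : (a : κ.ord.ToType) → Set (Set.Iio a → A)) (hT : IsSeqTree κ A T)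
    (θ : Cardinal.{u}) (hθ : ℵ₀ ≤ θ) (hθκ : θ < κ) (R : Set κ.ord.ToType)
    (t : (α : κ.ord.ToType) → Set.Iio α → A) (ht : ∀ α ∈ R, t α ∈ T α)
    (hloc : ∀ β : κ.ord.ToType, IsStationary {α : Set.Iio β | α.1 ∈ R} →
      ∃ (E : Set (Set.Iio β)) (P : Set (Set.Iio β → A)), IsClub E ∧ #P ≤ θ ∧
        ∀ α ∈ E, α.1 ∈ R → ∃ p ∈ P,
          #{ξ : Set.Iio α.1 | t α.1 ξ ≠
            p ⟨ξ.1, Set.mem_Iio.2 ((Set.mem_Iio.1 ξ.2).trans (Set.mem_Iio.1 α.2))⟩} ≤ θ) :
    ∃ (E : Set κ.ord.ToType) (Y : Set (κ.ord.ToType → A)), IsClub E ∧ #Y < κ ∧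
      (∀ y ∈ Y, ∀ a, (fun ξ : Set.Iio a => y ξ.1) ∈ T a) ∧
      ∀ α ∈ E, α ∈ R → ∃ y ∈ Y, #{ξ : Set.Iio α | t α ξ ≠ y ξ.1} ≤ θ :=
  main hunc hreg hlim hJ T hT hθ hθκ R t ht hloc

end Pool.Agent.Results.MP_68c39c_lc.LocalGlobal
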