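import Mathlib
import Pool.Agent.H93.Jon.Defs
import Pool.Agent.H93.Jon.Narrow

/-!
# Jonsson cardinals: narrow C-sequences are trivial (MP_68c39c_lc, question Q1)

Let `κ` be a weakly Mahlo Jonsson cardinal such that the regular Jonsson cardinals below `κ` do not
form a stationary set (in particular the least strongly inaccessible Jonsson cardinal), and let
`C β ∩ β` be cofinal in `β` for all `β < κ`. If at stationarily many `δ` there are fewer than `|δ|`
sets `C β ∩ δ` unbounded in `δ`, then a single unbounded `B ⊆ κ` has all its initial segments of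
the form `C β ∩ α`. For strongly inaccessible `κ`, weak compactness is this conclusion for all
C-sequences (Todorcevic). Definitions are in `Pool.Agent.H93.Jon.Defs`, the proof is in
`Pool.Agent.H93.Jon.Narrow`; `IsStationary` is Mathlib's.
-/

set_option autoImplicit false
universe u
open Cardinal Set Pool.Agent.H93.Jon

namespace Pool.Agent.Results.MP_68c39c_lc.NarrowCSequences

/-- **Theorem.** Let `κ` be a regular Jonsson cardinal such that the regular cardinals below `κ`
form a stationary subset of `κ` and the regular Jonsson cardinals below `κ` do not. Let `C β`, for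
`β < κ`, be sets such that `C β ∩ β` is cofinal in `β`, and suppose that for stationarily many
`δ < κ` there are fewer than `|δ|` sets of the form `C β ∩ δ` with `β ≥ δ` that are unbounded in
`δ`. Then there is an unbounded `B ⊆ κ` such that for every `α < κ` there is `β ≥ α` with
`B ∩ α = C β ∩ α`. -/
theorem result {κ : Cardinal.{u}} (hreg : κ.IsRegular) (hJ : IsJonsson κ)
    (hM : IsStationary {a : κ.ord.ToType | ∃ ν : Cardinal.{u}, ν.IsRegular ∧
      Ordinal.typein (α := κ.ord.ToType) (· < ·) a = ν.ord})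
    (hNJ : ¬ IsStationary {a : κ.ord.ToType | ∃ ν : Cardinal.{u}, ν.IsRegular ∧
      Ordinal.typein (α := κ.ord.ToType) (· < ·) a = ν.ord ∧ IsJonsson ν})
    (C : κ.ord.ToType → Set κ.ord.ToType)
    (hC : ∀ β ξ, ξ < β → ∃ η ∈ C β, ξ ≤ η ∧ η < β)
    (hN : IsStationary {δ : κ.ord.ToType |
      #{s : Set κ.ord.ToType | ∃ β, δ ≤ β ∧ (∀ ξ < δ, ∃ η ∈ C β, ξ < η ∧ η < δ) ∧
        s = C β ∩ Set.Iio δ} < #(Set.Iio δ)}) :
    ∃ B : Set κ.ord.ToType, (∀ ξ, ∃ η ∈ B, ξ < η) ∧
      ∀ α, ∃ β, α ≤ β ∧ B ∩ Set.Iio α = C β ∩ Set.Iio α :=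
  narrow_cseq' hreg hJ hM hNJ C hC hN

end Pool.Agent.Results.MP_68c39c_lc.NarrowCSequences
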